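import Mathlib

open scoped BigOperators

namespace Pool.Agent.Results.MP_709c52_lc.ExactRatio

/-! ### The online transportation problem -/

/-- The number of requests that the assignment `f` gives to site `j`. -/
def load {m n : ℕ} (f : Fin n → Fin m) (j : Fin m) : ℕ :=
  (Finset.univ.filter (fun i => f i = j)).card

/-- The total distance paid when request number `i` of the list `σ` is served from site
`s (f i)`. -/
noncomputable def cost {X : Type} [MetricSpace X] {m : ℕ} (s : Fin m → X) (σ : List X)
    (f : Fin σ.length → Fin m) : ℝ :=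
  ∑ i : Fin σ.length, dist (s (f i)) (σ.get i)

/-- The offline optimum for the requests `σ` when every site holds `k` servers. -/
noncomputable def opt {X : Type} [MetricSpace X] {m : ℕ} (k : ℕ) (s : Fin m → X)
    (σ : List X) : ℝ :=
  ⨅ f : {f : Fin σ.length → Fin m // ∀ j, load f j ≤ k}, cost s σ f.1

/-- A deterministic online algorithm for `m` sites.  Given the metric space, the capacity, the
sites and the list of the requests revealed so far, it names the site that serves the last
request of the list. -/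
def Alg (m : ℕ) : Type 1 :=
  (X : Type) → MetricSpace X → ℕ → (Fin m → X) → List X → Fin m

/-- The assignment produced by the online algorithm on `σ`: request number `i` is assigned
knowing only the requests number `0, …, i`. -/
def assign {m : ℕ} (A : Alg m) {X : Type} [inst : MetricSpace X] (k : ℕ) (s : Fin m → X)
    (σ : List X) : Fin σ.length → Fin m :=
  fun i => A X inst k s (σ.take (i + 1))

/-- `A` is `c`-competitive for `m` sites: on every instance (metric space, capacity `k ≥ 1`,
sites, at most `k m` requests) it uses at most `k` servers at each site and pays at most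
`c` times the offline optimum. -/
def IsCompetitive {m : ℕ} (A : Alg m) (c : ℝ) : Prop :=
  ∀ (X : Type) [MetricSpace X] (k : ℕ) (s : Fin m → X) (σ : List X),
    1 ≤ k → σ.length ≤ k * m →
      (∀ j, load (assign A k s σ) j ≤ k) ∧ cost s σ (assign A k s σ) ≤ c * opt k s σ

/-- `bestRatio m` is the number `f(m)`: the infimum of all `c` such that some deterministic online algorithm is
`c`-competitive on all instances with `m` sites. -/
noncomputable def bestRatio (m : ℕ) : ℝ := sInf {c : ℝ | ∃ A : Alg m, IsCompetitive A c}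

/-! ### Sums over request lists -/

lemma sum_append_one {X M : Type} [AddCommMonoid M] (F : ℕ → X → M) (σ : List X) (x : X) :
    ∑ i : Fin (σ ++ [x]).length, F i ((σ ++ [x]).get i)
      = (∑ i : Fin σ.length, F i (σ.get i)) + F σ.length x := by
  have h1 : ∀ l : List X, ∑ i : Fin l.length, F i (l.get i) = (l.mapIdx F).sum := by
    intro l
    rw [List.mapIdx_eq_ofFn, List.sum_ofFn]
  rw [h1, h1, List.mapIdx_concat]
  simp

section counting

variable {m : ℕ}

/-- number of indices below `n` that `h` sends to `l` -/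
def cnt (n : ℕ) (h : ℕ → Fin m) (l : Fin m) : ℕ :=
  ∑ i ∈ Finset.range n, if h i = l then 1 else 0

lemma cnt_succ (n : ℕ) (h : ℕ → Fin m) (l : Fin m) :
    cnt (n + 1) h l = cnt n h l + if h n = l then 1 else 0 :=
  Finset.sum_range_succ _ _

lemma cnt_congr {n : ℕ} {h h' : ℕ → Fin m} (H : ∀ i < n, h i = h' i) (l : Fin m) :
    cnt n h l = cnt n h' l := by
  unfold cnt
  apply Finset.sum_congr rfl
  intro i hi
  rw [H i (Finset.mem_range.1 hi)]

lemma cnt_ext (n : ℕ) (h : ℕ → Fin m) (j l : Fin m) :
    cnt (n + 1) (fun i => if i = n then j else h i) l = cnt n h l + if j = l then 1 else 0 := by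
  rw [cnt_succ]
  congr 1
  · apply cnt_congr
    intro i hi
    rw [if_neg (by omega)]
  · simp

lemma cnt_update (n : ℕ) (h : ℕ → Fin m) (x : ℕ) (hx : x < n) (a l : Fin m) :
    cnt n (Function.update h x a) l + (if h x = l then 1 else 0)
      = cnt n h l + (if a = l then 1 else 0) := by
  unfold cnt
  have hmem : x ∈ Finset.range n := Finset.mem_range.2 hx
  rw [← Finset.add_sum_erase _ _ hmem, ← Finset.add_sum_erase (Finset.range n) (fun i => if h i = l then 1 else 0) hmem]
  have : ∑ i ∈ (Finset.range n).erase x, (if Function.update h x a i = l then 1 else 0)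
      = ∑ i ∈ (Finset.range n).erase x, (if h i = l then 1 else 0) := by
    apply Finset.sum_congr rfl
    intro i hi
    rw [Function.update_of_ne (Finset.ne_of_mem_erase hi)]
  rw [this]
  simp only [Function.update_self]
  omega

/-- The exchange lemma.  If `f` uses every site of `F` more often than `g` (counting one extra
use of `l0` for `g`), then one can swap `f` and `g` on some indices such that the swapped `f`
has one unit less at `l0` and one unit more at some `j` outside `F`, and conversely for the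
swapped `g`. -/
lemma exchange (n : ℕ) (F : Finset (Fin m)) (d : ℕ) : ∀ (f g : ℕ → Fin m) (l0 : Fin m),
    ((Finset.range n).filter (fun x => f x ≠ g x)).card = d →
    (∀ l ∈ F, cnt n g l + (if l0 = l then 1 else 0) ≤ cnt n f l) →
    ∃ (f' g' : ℕ → Fin m) (j : Fin m), j ∉ F ∧
      (∀ x, (f' x = f x ∧ g' x = g x) ∨ (f' x = g x ∧ g' x = f x)) ∧
      (∀ l, cnt n f' l + (if l0 = l then 1 else 0) = cnt n f l + (if j = l then 1 else 0)) ∧
      (∀ l, cnt n g' l + (if j = l then 1 else 0) = cnt n g l + (if l0 = l then 1 else 0)) := by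
  induction d with
  | zero =>
    intro f g l0 hcard hF
    have hEq : ∀ x < n, f x = g x := by
      intro x hx
      by_contra hne
      have : x ∈ (Finset.range n).filter (fun x => f x ≠ g x) := by
        simp [hx, hne]
      rw [Finset.card_eq_zero] at hcard
      rw [hcard] at this
      simp at this
    by_cases hl0 : l0 ∈ F
    · exfalso
      have := hF l0 hl0
      rw [cnt_congr hEq l0] at this
      simp at this
    · exact ⟨f, g, l0, hl0, fun x => Or.inl ⟨rfl, rfl⟩, fun l => rfl, fun l => rfl⟩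
  | succ d ih =>
    intro f g l0 hcard hF
    by_cases hl0 : l0 ∈ F
    · -- find an index where `f` uses `l0` and `g` does not
      have hex : ∃ x < n, f x = l0 ∧ g x ≠ l0 := by
        by_contra hcon
        push Not at hcon
        have hle : cnt n f l0 ≤ cnt n g l0 := by
          unfold cnt
          apply Finset.sum_le_sum
          intro i hi
          by_cases hfi : f i = l0
          · rw [if_pos hfi, if_pos (hcon i (Finset.mem_range.1 hi) hfi)]
          · rw [if_neg hfi]; exact Nat.zero_le _
        have := hF l0 hl0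
        rw [if_pos rfl] at this
        omega
      obtain ⟨x, hxn, hfx, hgx⟩ := hex
      have hne : f x ≠ g x := by rw [hfx]; exact fun h => hgx h.symm
      have hup := cnt_update n f x hxn (g x)
      have hcard' : ((Finset.range n).filter (fun y => Function.update f x (g x) y ≠ g y)).card = d := by
        have : (Finset.range n).filter (fun y => Function.update f x (g x) y ≠ g y)
            = ((Finset.range n).filter (fun y => f y ≠ g y)).erase x := by
          ext y
          simp only [Finset.mem_filter, Finset.mem_range, Finset.mem_erase]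
          by_cases hyx : y = x
          · subst hyx; simp
          · rw [Function.update_of_ne hyx]; simp [hyx]
        rw [this, Finset.card_erase_of_mem, hcard]
        · rfl
        · simp [hxn, hne]
      obtain ⟨f1, g1, j, hjF, hsw, hf1, hg1⟩ := ih (Function.update f x (g x)) g (g x) hcard' (by
        intro l hl
        have h1 := hF l hl
        have h2 := hup l
        rw [hfx] at h2
        omega)
      have hx1 : f1 x = g x ∧ g1 x = g x := by
        have := hsw x
        rw [Function.update_self] at this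
        tauto
      have hg1x := cnt_update n g1 x hxn l0
      refine ⟨f1, Function.update g1 x l0, j, hjF, ?_, ?_, ?_⟩
      · intro y
        by_cases hyx : y = x
        · subst hyx
          right
          rw [Function.update_self]
          exact ⟨hx1.1, hfx.symm⟩
        · rw [Function.update_of_ne hyx]
          have := hsw y
          rw [Function.update_of_ne hyx] at this
          exact this
      · intro l
        have h1 := hf1 l
        have h2 := hup l
        rw [hfx] at h2
        omega
      · intro l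
        have h1 := hg1 l
        have h2 := hg1x l
        rw [hx1.2] at h2
        omega
    · exact ⟨f, g, l0, hl0, fun x => Or.inl ⟨rfl, rfl⟩, fun l => rfl, fun l => rfl⟩

lemma sum_psi (n : ℕ) (h : ℕ → Fin m) (ψ : Fin m → ℝ) :
    ∑ i ∈ Finset.range n, ψ (h i) = ∑ l, (cnt n h l : ℝ) * ψ l := by
  induction n with
  | zero => simp [cnt]
  | succ n ih =>
    rw [Finset.sum_range_succ, ih]
    have : ∀ l, ((cnt (n + 1) h l : ℕ) : ℝ) * ψ l
        = (cnt n h l : ℝ) * ψ l + (if h n = l then ψ l else 0) := by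
      intro l
      rw [cnt_succ]
      push_cast
      split_ifs <;> ring
    rw [Finset.sum_congr rfl (fun l _ => this l), Finset.sum_add_distrib]
    simp

lemma sum_psi_exchange (n : ℕ) (g g' : ℕ → Fin m) (j l0 : Fin m)
    (H : ∀ l, cnt n g' l + (if j = l then 1 else 0) = cnt n g l + (if l0 = l then 1 else 0))
    (ψ : Fin m → ℝ) :
    ∑ i ∈ Finset.range n, ψ (g' i) + ψ j = ∑ i ∈ Finset.range n, ψ (g i) + ψ l0 := by
  rw [sum_psi, sum_psi]
  have h1 : ∀ a : Fin m, ψ a = ∑ l, (if a = l then (1 : ℝ) else 0) * ψ l := by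
    intro a; simp
  rw [h1 j, h1 l0, ← Finset.sum_add_distrib, ← Finset.sum_add_distrib]
  apply Finset.sum_congr rfl
  intro l _
  have h2 : ((cnt n g' l + (if j = l then 1 else 0) : ℕ) : ℝ)
      = ((cnt n g l + (if l0 = l then 1 else 0) : ℕ) : ℝ) := by rw [H l]
  push_cast at h2
  rw [← add_mul, ← add_mul, h2]

end counting

section core

set_option linter.unusedSectionVars false

variable {X : Type} [MetricSpace X] {m : ℕ}

/-- cost of the assignment `h` of the list `σ` when request `x` costs `φ l x` at site `l` -/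
noncomputable def C (φ : Fin m → X → ℝ) (σ : List X) (h : ℕ → Fin m) : ℝ :=
  ∑ i : Fin σ.length, φ (h i) (σ.get i)

lemma C_append (φ : Fin m → X → ℝ) (σ : List X) (x : X) (h : ℕ → Fin m) :
    C φ (σ ++ [x]) h = C φ σ h + φ (h σ.length) x :=
  sum_append_one (fun i y => φ (h i) y) σ x

lemma C_congr (φ : Fin m → X → ℝ) (σ : List X) {h h' : ℕ → Fin m}
    (H : ∀ i < σ.length, h i = h' i) : C φ σ h = C φ σ h' := by
  unfold C
  apply Finset.sum_congr rfl
  intro i _
  rw [H i i.2]

lemma C_ext (φ : Fin m → X → ℝ) (σ : List X) (x : X) (h : ℕ → Fin m) (j : Fin m) :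
    C φ (σ ++ [x]) (fun i => if i = σ.length then j else h i) = C φ σ h + φ j x := by
  rw [C_append]
  congr 1
  · apply C_congr
    intro i hi
    rw [if_neg (by omega)]
  · simp

lemma C_nonneg (φ : Fin m → X → ℝ) (hφ : ∀ l x, 0 ≤ φ l x) (σ : List X) (h : ℕ → Fin m) :
    0 ≤ C φ σ h := Finset.sum_nonneg (fun _ _ => hφ _ _)

lemma C_swap (φ : Fin m → X → ℝ) (σ : List X) (f g f' g' : ℕ → Fin m)
    (H : ∀ x, (f' x = f x ∧ g' x = g x) ∨ (f' x = g x ∧ g' x = f x)) :
    C φ σ f' + C φ σ g' = C φ σ f + C φ σ g := by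
  unfold C
  rw [← Finset.sum_add_distrib, ← Finset.sum_add_distrib]
  apply Finset.sum_congr rfl
  intro i _
  rcases H i with ⟨h1, h2⟩ | ⟨h1, h2⟩
  · rw [h1, h2]
  · rw [h1, h2, add_comm]

lemma vals_finite (φ : Fin m → X → ℝ) (σ : List X) (P : (ℕ → Fin m) → Prop) :
    {y : ℝ | ∃ h : ℕ → Fin m, P h ∧ y = C φ σ h}.Finite := by
  apply Set.Finite.subset
    (Set.finite_range (fun g : Fin σ.length → Fin m => ∑ i, φ (g i) (σ.get i)))
  rintro y ⟨h, _, rfl⟩
  exact ⟨fun i => h i, rfl⟩

/-- least cost with respect to `φ` among the assignments respecting the capacities `c` -/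
noncomputable def Mn (c : Fin m → ℕ) (φ : Fin m → X → ℝ) (σ : List X) : ℝ :=
  sInf {y : ℝ | ∃ h : ℕ → Fin m, (∀ l, cnt σ.length h l ≤ c l) ∧ y = C φ σ h}

lemma Mn_le (c : Fin m → ℕ) (φ : Fin m → X → ℝ) (σ : List X) (h : ℕ → Fin m)
    (hh : ∀ l, cnt σ.length h l ≤ c l) : Mn c φ σ ≤ C φ σ h :=
  csInf_le (vals_finite φ σ _).bddBelow ⟨h, hh, rfl⟩

lemma Mn_attained (c : Fin m → ℕ) (φ : Fin m → X → ℝ) (σ : List X)
    (hex : ∃ h : ℕ → Fin m, ∀ l, cnt σ.length h l ≤ c l) :
    ∃ h : ℕ → Fin m, (∀ l, cnt σ.length h l ≤ c l) ∧ Mn c φ σ = C φ σ h := by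
  obtain ⟨h, hh⟩ := hex
  have hne : {y : ℝ | ∃ h : ℕ → Fin m, (∀ l, cnt σ.length h l ≤ c l) ∧ y = C φ σ h}.Nonempty :=
    ⟨_, h, hh, rfl⟩
  exact hne.csInf_mem (vals_finite φ σ _)

variable (s : Fin m → X)

/-- true cost -/
noncomputable def φ0 (l : Fin m) (x : X) : ℝ := dist (s l) x

/-- modified cost with respect to site `i` -/
noncomputable def φ1 (i l : Fin m) (x : X) : ℝ := dist (s l) x + dist (s i) (s l) - dist (s i) x

lemma φ0_nonneg (l : Fin m) (x : X) : 0 ≤ φ0 s l x := dist_nonneg

lemma φ1_nonneg (i l : Fin m) (x : X) : 0 ≤ φ1 s i l x := by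
  unfold φ1
  have := dist_triangle (s i) (s l) x
  linarith

lemma φ1_le (i l : Fin m) (x : X) : φ1 s i l x ≤ 2 * φ0 s l x := by
  unfold φ1 φ0
  have := dist_triangle (s i) x (s l)
  rw [dist_comm x (s l)] at this
  linarith

lemma C_φ1 (i : Fin m) (σ : List X) (h : ℕ → Fin m) :
    C (φ1 s i) σ h = C (φ0 s) σ h + ∑ k ∈ Finset.range σ.length, dist (s i) (s (h k))
      - ∑ k : Fin σ.length, dist (s i) (σ.get k) := by
  unfold C φ1 φ0
  rw [Finset.sum_sub_distrib, Finset.sum_add_distrib, Finset.sum_range]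

variable (c : Fin m → ℕ)

lemma Mn_φ1_nonneg (i : Fin m) (σ : List X) (hex : ∃ h : ℕ → Fin m, ∀ l, cnt σ.length h l ≤ c l) :
    0 ≤ Mn c (φ1 s i) σ := by
  obtain ⟨h, _, hh⟩ := Mn_attained c (φ1 s i) σ hex
  rw [hh]
  exact C_nonneg _ (φ1_nonneg s i) _ _

lemma Mn_φ1_mono (i : Fin m) (σ : List X) (x : X)
    (hex : ∃ h : ℕ → Fin m, ∀ l, cnt (σ ++ [x]).length h l ≤ c l) :
    Mn c (φ1 s i) σ ≤ Mn c (φ1 s i) (σ ++ [x]) := by
  obtain ⟨h, hc, hh⟩ := Mn_attained c (φ1 s i) (σ ++ [x]) hex
  rw [hh, C_append]
  have h1 : Mn c (φ1 s i) σ ≤ C (φ1 s i) σ h := by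
    apply Mn_le
    intro l
    have := hc l
    rw [List.length_append, List.length_singleton, cnt_succ] at this
    omega
  have h2 := φ1_nonneg s i (h σ.length) x
  linarith

lemma Mn_φ1_le (i : Fin m) (σ : List X) (hex : ∃ h : ℕ → Fin m, ∀ l, cnt σ.length h l ≤ c l) :
    Mn c (φ1 s i) σ ≤ 2 * Mn c (φ0 s) σ := by
  obtain ⟨h, hc, hh⟩ := Mn_attained c (φ0 s) σ hex
  rw [hh]
  refine (Mn_le c (φ1 s i) σ h hc).trans ?_
  unfold C
  rw [Finset.mul_sum]
  exact Finset.sum_le_sum (fun k _ => φ1_le s i _ _)

/-- candidate moves: serve the next request at the non-full site `j` and let `h` be an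
assignment of all requests with the resulting numbers of used servers -/
def Cand (n : ℕ) (u : Fin m → ℕ) (j : Fin m) (h : ℕ → Fin m) : Prop :=
  u j < c j ∧ ∀ l, cnt (n + 1) h l = u l + if j = l then 1 else 0

/-- the work function rule -/
def Best (τ : List X) (r : X) (u : Fin m → ℕ) (j : Fin m) (h : ℕ → Fin m) : Prop :=
  Cand c τ.length u j h ∧ ∀ j' h', Cand c τ.length u j' h' →
    C (φ0 s) (τ ++ [r]) h + dist (s j) r ≤ C (φ0 s) (τ ++ [r]) h' + dist (s j') r

lemma exists_best (τ : List X) (r : X) (u : Fin m → ℕ) (hex : ∃ j h, Cand c τ.length u j h) :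
    ∃ j h, Best s c τ r u j h := by
  set V : Set ℝ := {y : ℝ | ∃ j h, Cand c τ.length u j h ∧ y = C (φ0 s) (τ ++ [r]) h + dist (s j) r}
    with hV
  have hfin : V.Finite := by
    apply Set.Finite.subset (Set.finite_range
      (fun p : Fin m × (Fin (τ ++ [r]).length → Fin m) =>
        ∑ i, φ0 s (p.2 i) ((τ ++ [r]).get i) + dist (s p.1) r))
    rintro y ⟨j, h, _, rfl⟩
    exact ⟨(j, fun i => h i), rfl⟩
  have hne : V.Nonempty := by
    obtain ⟨j, h, hc⟩ := hex
    exact ⟨_, j, h, hc, rfl⟩
  obtain ⟨j, h, hc, hy⟩ := hne.csInf_mem hfin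
  refine ⟨j, h, hc, ?_⟩
  intro j' h' hc'
  rw [← hy]
  exact csInf_le hfin.bddBelow ⟨j', h', hc', rfl⟩

/-- If site `l` is not full, the extended cost is at most twice the distance to `l`. -/
lemma ec_nonfull (τ : List X) (r : X) (u : Fin m → ℕ) (f : ℕ → Fin m)
    (hf : ∀ l, cnt τ.length f l = u l) (j : Fin m) (h : ℕ → Fin m) (hb : Best s c τ r u j h)
    (l : Fin m) (hl : u l < c l) :
    C (φ0 s) (τ ++ [r]) h + dist (s j) r - C (φ0 s) τ f ≤ 2 * dist (s l) r := by
  have h1 := hb.2 l (fun i => if i = τ.length then l else f i) ⟨hl, by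
    intro k
    rw [cnt_ext, hf k]⟩
  rw [C_ext] at h1
  simp only [φ0] at h1 ⊢
  linarith

/-- If site `i` is full, the extended cost is at most twice the distance to `i` plus the
increase of the modified optimum with respect to `i`. -/
lemma ec_full (τ : List X) (r : X) (u : Fin m → ℕ) (hu : ∀ l, u l ≤ c l) (f : ℕ → Fin m)
    (hf : ∀ l, cnt τ.length f l = u l) (j : Fin m) (h : ℕ → Fin m) (hb : Best s c τ r u j h)
    (hex : ∃ h : ℕ → Fin m, ∀ l, cnt (τ ++ [r]).length h l ≤ c l)
    (i : Fin m) :
    C (φ0 s) (τ ++ [r]) h + dist (s j) r - C (φ0 s) τ f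
      ≤ 2 * dist (s i) r + (Mn c (φ1 s i) (τ ++ [r]) - Mn c (φ1 s i) τ) := by
  obtain ⟨g, hg, hgM⟩ := Mn_attained c (φ1 s i) (τ ++ [r]) hex
  obtain ⟨l0, hl0⟩ : ∃ l0, g τ.length = l0 := ⟨_, rfl⟩
  have hg' : ∀ l, cnt τ.length g l + (if l0 = l then 1 else 0) ≤ c l := by
    intro l
    have := hg l
    rw [List.length_append, List.length_singleton, cnt_succ, hl0] at this
    exact this
  obtain ⟨f1, g1, j1, hj1, hsw, hf1, hg1⟩ := exchange τ.length
    (Finset.univ.filter (fun l => u l = c l)) _ f g l0 rfl (by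
      intro l hl
      rw [Finset.mem_filter] at hl
      rw [hf l, hl.2]
      exact hg' l)
  have hj1' : u j1 < c j1 := by
    have h1 := hu j1
    have h2 : u j1 ≠ c j1 := by
      intro h3
      apply hj1
      simp [h3]
    omega
  -- the work function rule against the exchanged assignment
  have hbest := hb.2 j1 (fun k => if k = τ.length then l0 else f1 k) ⟨hj1', by
    intro l
    rw [cnt_ext, hf1 l, hf l]⟩
  rw [C_ext] at hbest
  -- the modified optimum of `τ`
  have hM1 : Mn c (φ1 s i) τ ≤ C (φ1 s i) τ g1 := by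
    apply Mn_le
    intro l
    have h1 := hg1 l
    have h2 := hg' l
    omega
  have hM2 : Mn c (φ1 s i) (τ ++ [r]) = C (φ1 s i) τ g + φ1 s i l0 r := by
    rw [hgM, C_append, hl0]
  have hswap := C_swap (φ0 s) τ f g f1 g1 hsw
  have hpsi := sum_psi_exchange τ.length g g1 j1 l0 hg1 (fun l => dist (s i) (s l))
  have e1 := C_φ1 s i τ g
  have e2 := C_φ1 s i τ g1
  have tri : dist (s j1) r ≤ dist (s i) (s j1) + dist (s i) r := by
    have := dist_triangle (s j1) (s i) r
    rw [dist_comm (s j1) (s i)] at this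
    exact this
  simp only [φ1, φ0] at hM2 hbest hswap e1 e2 ⊢
  linarith

/-! ### Cost and load of an online rule -/

/-- cost paid by the online rule `B` on the list `σ` -/
noncomputable def rc (B : List X → Fin m) (σ : List X) : ℝ :=
  ∑ i : Fin σ.length, dist (s (B (σ.take (i + 1)))) (σ.get i)

/-- number of servers of site `j` used by the online rule `B` on the list `σ` -/
def ld (B : List X → Fin m) (σ : List X) (j : Fin m) : ℕ :=
  ∑ i : Fin σ.length, if B (σ.take (i + 1)) = j then 1 else 0

lemma rc_nil (B : List X → Fin m) : rc s B [] = 0 := by simp [rc]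

lemma ld_nil (B : List X → Fin m) (j : Fin m) : ld B [] j = 0 := by simp [ld]

lemma rc_append (B : List X → Fin m) (σ : List X) (x : X) :
    rc s B (σ ++ [x]) = rc s B σ + dist (s (B (σ ++ [x]))) x := by
  unfold rc
  have := sum_append_one (fun i y => dist (s (B ((σ ++ [x]).take (i + 1)))) y) σ x
  rw [this]
  congr 1
  · apply Finset.sum_congr rfl
    intro i _
    rw [List.take_append_of_le_length (by omega)]
  · rw [List.take_of_length_le (by simp)]

lemma ld_append (B : List X → Fin m) (σ : List X) (x : X) (j : Fin m) :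
    ld B (σ ++ [x]) j = ld B σ j + if B (σ ++ [x]) = j then 1 else 0 := by
  unfold ld
  have := sum_append_one (fun i _ => if B ((σ ++ [x]).take (i + 1)) = j then 1 else 0) σ x
  rw [this]
  congr 1
  · apply Finset.sum_congr rfl
    intro i _
    rw [List.take_append_of_le_length (by omega)]
  · rw [List.take_of_length_le (by simp)]

lemma sum_ld (B : List X → Fin m) (σ : List X) : ∑ j, ld B σ j = σ.length := by
  unfold ld
  rw [Finset.sum_comm]
  simp

/-! ### The work function algorithm -/

section algorithm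

variable [NeZero m]

open Classical in
/-- the site chosen for the request `r` after the requests `τ`, when `u l` servers of site `l`
have been used -/
noncomputable def pick (τ : List X) (r : X) (u : Fin m → ℕ) : Fin m :=
  if h : ∃ j h, Best s c τ r u j h then h.choose else 0

/-- used servers after the requests of a reversed list -/
noncomputable def usageRev : List X → (Fin m → ℕ)
  | [] => fun _ => 0
  | (r :: ρ) => fun l => usageRev ρ l + if pick s c ρ.reverse r (usageRev ρ) = l then 1 else 0

/-- the work function algorithm as an online rule -/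
noncomputable def wfa (σ : List X) : Fin m :=
  match σ.reverse with
  | [] => 0
  | (r :: ρ) => pick s c ρ.reverse r (usageRev s c ρ)

lemma wfa_append (τ : List X) (r : X) :
    wfa s c (τ ++ [r]) = pick s c τ r (usageRev s c τ.reverse) := by
  unfold wfa
  simp

lemma usageRev_eq (σ : List X) (l : Fin m) : usageRev s c σ.reverse l = ld (wfa s c) σ l := by
  induction σ using List.reverseRecOn with
  | nil => simp [usageRev, ld_nil]
  | append_singleton τ r ih =>
    rw [ld_append, wfa_append, ← ih]
    simp [usageRev]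

lemma usageRev_eq' (σ : List X) : usageRev s c σ.reverse = ld (wfa s c) σ :=
  funext (usageRev_eq s c σ)

lemma exists_near (x : X) : ∃ l : Fin m, ∀ l', dist (s l) x ≤ dist (s l') x :=
  Finite.exists_min (fun l => dist (s l) x)

/-- a site nearest to `x` -/
noncomputable def near (x : X) : Fin m := (exists_near s x).choose

lemma near_spec (x : X) (l : Fin m) : dist (s (near s x)) x ≤ dist (s l) x :=
  (exists_near s x).choose_spec l

/-- sum of the distances to the nearest sites -/
noncomputable def Nr (σ : List X) : ℝ := (σ.map (fun x => dist (s (near s x)) x)).sum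

lemma Nr_append (σ : List X) (x : X) : Nr s (σ ++ [x]) = Nr s σ + dist (s (near s x)) x := by
  simp [Nr]

lemma Nr_le (σ : List X) (h : ℕ → Fin m) : Nr s σ ≤ C (φ0 s) σ h := by
  induction σ using List.reverseRecOn with
  | nil => simp [Nr, C]
  | append_singleton τ r ih =>
    rw [Nr_append, C_append]
    have := near_spec s r (h τ.length)
    unfold φ0 at ih ⊢
    linarith

/-- The invariant of the work function algorithm, in the strong form after a step. -/
lemma step (τ : List X) (r : X) (hlen : (τ ++ [r]).length ≤ ∑ l, c l)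
    (ih : ∃ f : ℕ → Fin m, (∀ l, cnt τ.length f l = ld (wfa s c) τ l) ∧
      (∀ l, ld (wfa s c) τ l ≤ c l) ∧
      rc s (wfa s c) τ + C (φ0 s) τ f ≤ 2 * Nr s τ
        + ∑ l ∈ Finset.univ.filter (fun l => ld (wfa s c) τ l = c l), Mn c (φ1 s l) τ) :
    (∃ f : ℕ → Fin m, (∀ l, cnt (τ ++ [r]).length f l = ld (wfa s c) (τ ++ [r]) l) ∧
      (∀ l, ld (wfa s c) (τ ++ [r]) l ≤ c l) ∧
      rc s (wfa s c) (τ ++ [r]) + C (φ0 s) (τ ++ [r]) f ≤ 2 * Nr s (τ ++ [r])
        + ∑ l ∈ Finset.univ.filter (fun l => ld (wfa s c) τ l = c l), Mn c (φ1 s l) (τ ++ [r]))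
    ∧ (Finset.univ.filter (fun l => ld (wfa s c) τ l = c l)).card + 1 ≤ m := by
  obtain ⟨f, hf, hu, hinv⟩ := ih
  set u := ld (wfa s c) τ with hudef
  -- a non-full site exists
  have hlen' : τ.length < ∑ l, c l := by
    rw [List.length_append, List.length_singleton] at hlen
    omega
  obtain ⟨j0, _, hj0⟩ : ∃ j ∈ (Finset.univ : Finset (Fin m)), u j < c j := by
    apply Finset.exists_lt_of_sum_lt
    rw [hudef, sum_ld]
    exact hlen'
  have hcand : ∃ j h, Cand c τ.length u j h :=
    ⟨j0, fun i => if i = τ.length then j0 else f i, hj0, fun l => by rw [cnt_ext, hf l]⟩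
  have hbex := exists_best s c τ r u hcand
  have hpick : wfa s c (τ ++ [r]) = hbex.choose := by
    rw [wfa_append, usageRev_eq' s c τ, ← hudef]
    unfold pick
    rw [dif_pos hbex]
  obtain ⟨h, hb⟩ := hbex.choose_spec
  rw [← hpick] at hb
  set j := wfa s c (τ ++ [r]) with hj
  have hcnt : ∀ l, cnt (τ ++ [r]).length h l = ld (wfa s c) (τ ++ [r]) l := by
    intro l
    rw [ld_append, List.length_append, List.length_singleton]
    exact hb.1.2 l
  have hcap : ∀ l, ld (wfa s c) (τ ++ [r]) l ≤ c l := by
    intro l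
    rw [ld_append, ← hj]
    by_cases hl : j = l
    · rw [if_pos hl]
      have := hb.1.1
      rw [hl] at this
      exact this
    · rw [if_neg hl]
      exact hu l
  have hex : ∃ h : ℕ → Fin m, ∀ l, cnt (τ ++ [r]).length h l ≤ c l :=
    ⟨h, fun l => by rw [hcnt l]; exact hcap l⟩
  refine ⟨⟨h, hcnt, hcap, ?_⟩, ?_⟩
  · rw [rc_append, Nr_append, ← hj]
    set F := Finset.univ.filter (fun l => u l = c l) with hF
    have hmono : ∀ l ∈ F, Mn c (φ1 s l) τ ≤ Mn c (φ1 s l) (τ ++ [r]) :=
      fun l _ => Mn_φ1_mono s c l τ r hex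
    by_cases hnF : near s r ∈ F
    · have hec := ec_full s c τ r u hu f hf j h hb hex (near s r)
      have hsum : ∑ l ∈ F, Mn c (φ1 s l) τ
          + (Mn c (φ1 s (near s r)) (τ ++ [r]) - Mn c (φ1 s (near s r)) τ)
          ≤ ∑ l ∈ F, Mn c (φ1 s l) (τ ++ [r]) := by
        rw [← Finset.add_sum_erase _ _ hnF, ← Finset.add_sum_erase F (fun l => Mn c (φ1 s l) (τ ++ [r])) hnF]
        have : ∑ l ∈ F.erase (near s r), Mn c (φ1 s l) τ
            ≤ ∑ l ∈ F.erase (near s r), Mn c (φ1 s l) (τ ++ [r]) :=
          Finset.sum_le_sum (fun l hl => hmono l (Finset.mem_of_mem_erase hl))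
        linarith
      linarith
    · have hlt : u (near s r) < c (near s r) := by
        have h1 := hu (near s r)
        have h2 : u (near s r) ≠ c (near s r) := by
          intro h3
          apply hnF
          simp [hF, h3]
        omega
      have hec := ec_nonfull s c τ r u f hf j h hb (near s r) hlt
      have hsum := Finset.sum_le_sum hmono
      linarith
  · have hsub : Finset.univ.filter (fun l => u l = c l) ⊆ Finset.univ.erase j0 := by
      intro l hl
      rw [Finset.mem_filter] at hl
      rw [Finset.mem_erase]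
      refine ⟨?_, Finset.mem_univ _⟩
      rintro rfl
      omega
    have h1 := Finset.card_le_card hsub
    rw [Finset.card_erase_of_mem (Finset.mem_univ _), Finset.card_univ, Fintype.card_fin] at h1
    have h2 : 0 < m := Nat.pos_of_ne_zero (NeZero.ne m)
    omega

/-- The invariant of the work function algorithm. -/
lemma inv (σ : List X) (hlen : σ.length ≤ ∑ l, c l) :
    ∃ f : ℕ → Fin m, (∀ l, cnt σ.length f l = ld (wfa s c) σ l) ∧
      (∀ l, ld (wfa s c) σ l ≤ c l) ∧
      rc s (wfa s c) σ + C (φ0 s) σ f ≤ 2 * Nr s σ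
        + ∑ l ∈ Finset.univ.filter (fun l => ld (wfa s c) σ l = c l), Mn c (φ1 s l) σ := by
  induction σ using List.reverseRecOn with
  | nil =>
    refine ⟨fun _ => 0, fun l => by simp [cnt, ld_nil], fun l => by simp [ld_nil], ?_⟩
    have h1 : C (φ0 s) ([] : List X) (fun _ => (0 : Fin m)) = 0 := by simp [C]
    have h2 : Nr s ([] : List X) = 0 := by simp [Nr]
    rw [rc_nil, h1, h2]
    simp only [add_zero, mul_zero, zero_add]
    apply Finset.sum_nonneg
    intro l _
    exact Mn_φ1_nonneg s c l [] ⟨fun _ => 0, fun l => by simp [cnt]⟩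
  | append_singleton τ r ih =>
    have hlen' : τ.length ≤ ∑ l, c l := by
      rw [List.length_append, List.length_singleton] at hlen
      omega
    obtain ⟨⟨f, hf, hu, hinv⟩, _⟩ := step s c τ r hlen (ih hlen')
    refine ⟨f, hf, hu, hinv.trans ?_⟩
    have hex : ∃ h : ℕ → Fin m, ∀ l, cnt (τ ++ [r]).length h l ≤ c l :=
      ⟨f, fun l => by rw [hf l]; exact hu l⟩
    have hsub : Finset.univ.filter (fun l => ld (wfa s c) τ l = c l)
        ⊆ Finset.univ.filter (fun l => ld (wfa s c) (τ ++ [r]) l = c l) := by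
      intro l hl
      rw [Finset.mem_filter] at hl ⊢
      refine ⟨hl.1, ?_⟩
      have h1 := hu l
      rw [ld_append] at h1 ⊢
      omega
    have := Finset.sum_le_sum_of_subset_of_nonneg (f := fun l => Mn c (φ1 s l) (τ ++ [r])) hsub
      (fun l _ _ => Mn_φ1_nonneg s c l (τ ++ [r]) hex)
    linarith

/-- **Upper bound.** The work function algorithm pays at most `2 m - 1` times the optimum, for
arbitrary capacities. -/
theorem upper (σ : List X) (hlen : σ.length ≤ ∑ l, c l) :
    (∀ l, ld (wfa s c) σ l ≤ c l) ∧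
      rc s (wfa s c) σ ≤ (2 * (m : ℝ) - 1) * Mn c (φ0 s) σ := by
  induction σ using List.reverseRecOn with
  | nil =>
    refine ⟨fun l => by simp [ld_nil], ?_⟩
    obtain ⟨h, _, hh⟩ := Mn_attained c (φ0 s) ([] : List X) ⟨fun _ => 0, fun l => by simp [cnt]⟩
    rw [rc_nil, hh]
    simp [C]
  | append_singleton τ r _ =>
    have hlen' : τ.length ≤ ∑ l, c l := by
      rw [List.length_append, List.length_singleton] at hlen
      omega
    obtain ⟨⟨f, hf, hu, hinv⟩, hcard⟩ := step s c τ r hlen (inv s c τ hlen')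
    refine ⟨hu, ?_⟩
    have hfeas : ∀ l, cnt (τ ++ [r]).length f l ≤ c l := fun l => by rw [hf l]; exact hu l
    have hex : ∃ h : ℕ → Fin m, ∀ l, cnt (τ ++ [r]).length h l ≤ c l := ⟨f, hfeas⟩
    obtain ⟨g, hg, hgM⟩ := Mn_attained c (φ0 s) (τ ++ [r]) hex
    have h0 : 0 ≤ Mn c (φ0 s) (τ ++ [r]) := by
      rw [hgM]; exact C_nonneg _ (φ0_nonneg s) _ _
    have h1 : Mn c (φ0 s) (τ ++ [r]) ≤ C (φ0 s) (τ ++ [r]) f := Mn_le c _ _ f hfeas
    have h2 : Nr s (τ ++ [r]) ≤ Mn c (φ0 s) (τ ++ [r]) := by
      rw [hgM]; exact Nr_le s _ _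
    set F := Finset.univ.filter (fun l => ld (wfa s c) τ l = c l) with hF
    have h3 : ∑ l ∈ F, Mn c (φ1 s l) (τ ++ [r]) ≤ (F.card : ℝ) * (2 * Mn c (φ0 s) (τ ++ [r])) := by
      rw [← nsmul_eq_mul, ← Finset.sum_const]
      exact Finset.sum_le_sum (fun l _ => Mn_φ1_le s c l _ hex)
    have h4 : (F.card : ℝ) ≤ (m : ℝ) - 1 := by
      have : ((F.card + 1 : ℕ) : ℝ) ≤ (m : ℝ) := by exact_mod_cast hcard
      push_cast at this
      linarith
    have h5 : (F.card : ℝ) * (2 * Mn c (φ0 s) (τ ++ [r]))
        ≤ ((m : ℝ) - 1) * (2 * Mn c (φ0 s) (τ ++ [r])) :=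
      mul_le_mul_of_nonneg_right h4 (by linarith)
    nlinarith

end algorithm

end core

/-! ### Translation to the official definitions -/

section translation

variable {X : Type} [MetricSpace X] {m : ℕ}

lemma load_eq_cnt {n : ℕ} (h : ℕ → Fin m) (j : Fin m) : load (fun i : Fin n => h i) j = cnt n h j := by
  unfold load cnt
  rw [Finset.card_filter, Finset.sum_range]

lemma cost_eq_C (s : Fin m → X) (σ : List X) (h : ℕ → Fin m) :
    cost s σ (fun i => h i) = C (φ0 s) σ h := rfl

lemma exists_extension [NeZero m] {n : ℕ} (g : Fin n → Fin m) :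
    ∃ h : ℕ → Fin m, (fun i : Fin n => h i) = g := by
  refine ⟨fun i => if hi : i < n then g ⟨i, hi⟩ else 0, ?_⟩
  funext i
  simp

lemma opt_bddBelow (k : ℕ) (s : Fin m → X) (σ : List X) :
    BddBelow (Set.range (fun f : {f : Fin σ.length → Fin m // ∀ j, load f j ≤ k} => cost s σ f.1)) :=
  ⟨0, by rintro _ ⟨f, rfl⟩; exact Finset.sum_nonneg (fun _ _ => dist_nonneg)⟩

lemma opt_nonneg (k : ℕ) (s : Fin m → X) (σ : List X) : 0 ≤ opt k s σ :=
  Real.iInf_nonneg (fun _ => Finset.sum_nonneg (fun _ _ => dist_nonneg))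

lemma Mn_le_opt [NeZero m] (k : ℕ) (s : Fin m → X) (σ : List X)
    (hex : ∃ f : Fin σ.length → Fin m, ∀ j, load f j ≤ k) :
    Mn (fun _ => k) (φ0 s) σ ≤ opt k s σ := by
  obtain ⟨f0, hf0⟩ := hex
  have : Nonempty {f : Fin σ.length → Fin m // ∀ j, load f j ≤ k} := ⟨⟨f0, hf0⟩⟩
  apply le_ciInf
  rintro ⟨g, hg⟩
  obtain ⟨h, rfl⟩ := exists_extension g
  rw [cost_eq_C]
  apply Mn_le
  intro l
  rw [← load_eq_cnt]
  exact hg l

end translation

/-- the work function algorithm in the official format -/
noncomputable def WFA (m : ℕ) [NeZero m] : Alg m :=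
  fun X _ k s => wfa (X := X) s (fun _ => k)

theorem WFA_competitive (m : ℕ) [NeZero m] : IsCompetitive (WFA m) (2 * (m : ℝ) - 1) := by
  intro X inst k s σ _ hlen
  have hlen' : σ.length ≤ ∑ _l : Fin m, k := by
    rw [Finset.sum_const, Finset.card_univ, Fintype.card_fin, smul_eq_mul, mul_comm]
    exact hlen
  obtain ⟨h1, h2⟩ := upper s (fun _ => k) σ hlen'
  have hload : ∀ j, load (assign (WFA m) k s σ) j ≤ k := by
    intro j
    have := h1 j
    unfold ld at this
    unfold load assign WFA
    rw [Finset.card_filter]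
    exact this
  refine ⟨hload, ?_⟩
  have hcost : cost s σ (assign (WFA m) k s σ) = rc s (wfa s (fun _ => k)) σ := rfl
  rw [hcost]
  refine h2.trans ?_
  have hm : (1 : ℝ) ≤ m := by
    have : 1 ≤ m := Nat.pos_of_ne_zero (NeZero.ne m)
    exact_mod_cast this
  exact mul_le_mul_of_nonneg_left (Mn_le_opt k s σ ⟨_, hload⟩) (by linarith)

/-! ### The lower bound on a star -/

/-- The points of a star with `m` leaves. -/
inductive Star (m : ℕ) : Type
  | center : Star m
  | leaf (i : Fin m) : Star m
  deriving DecidableEq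

namespace Star

/-- distance of a point of the star to the centre -/
def wt {m : ℕ} : Star m → ℝ
  | center => 0
  | leaf _ => 1

lemma wt_nonneg {m : ℕ} (x : Star m) : 0 ≤ wt x := by cases x <;> simp [wt]

/-- star distance -/
def d {m : ℕ} (x y : Star m) : ℝ := if x = y then 0 else wt x + wt y

noncomputable instance {m : ℕ} : MetricSpace (Star m) where
  dist := d
  dist_self x := by simp [d]
  dist_comm x y := by
    unfold d
    by_cases h : x = y
    · simp [h]
    · rw [if_neg h, if_neg (fun h' => h h'.symm), add_comm]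
  dist_triangle x y z := by
    have hx := wt_nonneg x
    have hy := wt_nonneg y
    have hz := wt_nonneg z
    unfold d
    by_cases h1 : x = z
    · subst h1
      rw [if_pos rfl]
      by_cases h2 : x = y
      · subst h2; simp
      · rw [if_neg h2, if_neg (fun h' => h2 h'.symm)]; linarith
    · rw [if_neg h1]
      by_cases h2 : x = y
      · subst h2; rw [if_pos rfl, if_neg h1]; linarith
      · rw [if_neg h2]
        by_cases h3 : y = z
        · subst h3; rw [if_pos rfl]; linarith
        · rw [if_neg h3]; linarith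
  eq_of_dist_eq_zero := by
    intro x y h
    change d x y = 0 at h
    unfold d at h
    by_cases hxy : x = y
    · exact hxy
    · rw [if_neg hxy] at h
      cases x <;> cases y <;> simp [wt] at h hxy ⊢

lemma dist_def {m : ℕ} (x y : Star m) : dist x y = d x y := rfl

lemma dist_leaf_center {m : ℕ} (i : Fin m) : dist (leaf i) (center : Star m) = 1 := by
  simp [dist_def, d, wt]

lemma dist_leaf_leaf {m : ℕ} {i j : Fin m} (h : i ≠ j) :
    dist (leaf i) (leaf j : Star m) = 2 := by
  simp [dist_def, d, wt, h]; norm_num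

end Star

section lower

variable {m : ℕ} (B : List (Star m) → Fin m)

/-- the adversary: first the centre, then always the leaf used last -/
def sq : ℕ → List (Star m)
  | 0 => [Star.center]
  | (t + 1) => sq t ++ [Star.leaf (B (sq t))]

lemma sq_length (t : ℕ) : (sq B t).length = t + 1 := by
  induction t with
  | zero => rfl
  | succ t ih => simp [sq, ih]

lemma ld_sq (t : ℕ) (l : Fin m) : ld B (sq B t) l = cnt (t + 1) (fun i => B (sq B i)) l := by
  induction t with
  | zero =>
    have h1 : sq B 0 = [] ++ [Star.center] := rfl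
    rw [h1, ld_append, ld_nil, cnt_succ]
    simp only [cnt, sq, Finset.range_zero, Finset.sum_empty, List.nil_append]
    rfl
  | succ t ih =>
    rw [cnt_succ, ← ih]
    conv_lhs => rw [sq]
    rw [ld_append]
    rfl

lemma rc_sq (T : ℕ) (hB : ∀ t ≤ T, ∀ l, ld B (sq B t) l ≤ 1) :
    ∀ t ≤ T, rc (Star.leaf : Fin m → Star m) B (sq B t) = 1 + 2 * t := by
  intro t
  induction t with
  | zero =>
    intro _
    have h1 : sq B 0 = [] ++ [Star.center] := rfl
    rw [h1, rc_append, rc_nil, Star.dist_leaf_center]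
    simp
  | succ t ih =>
    intro ht
    conv_lhs => rw [sq]
    rw [rc_append, ih (by omega)]
    have hne : B (sq B t ++ [Star.leaf (B (sq B t))]) ≠ B (sq B t) := by
      intro h
      have h1 := hB (t + 1) ht (B (sq B t))
      rw [ld_sq, cnt_succ, cnt_succ] at h1
      have h2 : B (sq B (t + 1)) = B (sq B t) := h
      simp [h2] at h1
    rw [Star.dist_leaf_leaf hne]
    push_cast
    ring

lemma opt_sq [NeZero m] (t : ℕ) (hB : ∀ l, ld B (sq B t) l ≤ 1) :
    opt 1 (Star.leaf : Fin m → Star m) (sq B t) ≤ 1 := by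
  set h : ℕ → Fin m := fun i => if i = 0 then B (sq B t) else B (sq B (i - 1)) with hh
  have hcost : ∀ t' ≤ t, C (φ0 (Star.leaf : Fin m → Star m)) (sq B t') h = 1 := by
    intro t'
    induction t' with
    | zero =>
      intro _
      have h1 : sq B 0 = [] ++ [Star.center] := rfl
      rw [h1, C_append]
      simp [C, φ0, Star.dist_leaf_center]
    | succ t' ih =>
      intro ht'
      conv_lhs => rw [sq]
      rw [C_append, ih (by omega), sq_length]
      simp [φ0, hh]
  have hload : ∀ l, load (fun i : Fin (sq B t).length => h i) l ≤ 1 := by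
    intro l
    rw [load_eq_cnt, sq_length]
    have h1 := hB l
    rw [ld_sq, cnt_succ] at h1
    unfold cnt at h1 ⊢
    rw [Finset.sum_range_succ']
    simpa [hh] using h1
  have := ciInf_le (opt_bddBelow 1 (Star.leaf : Fin m → Star m) (sq B t)) ⟨fun i => h i, hload⟩
  exact this.trans (le_of_eq (hcost t le_rfl))

end lower

/-- **Lower bound.** No deterministic online algorithm is better than `(2 m - 1)`-competitive. -/
theorem lower_bound (m : ℕ) [NeZero m] (A : Alg m) (c : ℝ) (hA : IsCompetitive A c) :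
    2 * (m : ℝ) - 1 ≤ c := by
  set B : List (Star m) → Fin m := A (Star m) inferInstance 1 Star.leaf with hBdef
  have hm : 1 ≤ m := Nat.pos_of_ne_zero (NeZero.ne m)
  have hA' : ∀ t ≤ m - 1, ∀ l, ld B (sq B t) l ≤ 1 := by
    intro t ht l
    have := (hA (Star m) 1 Star.leaf (sq B t) le_rfl (by rw [sq_length]; omega)).1 l
    unfold load assign at this
    rw [Finset.card_filter] at this
    exact this
  have h1 := (hA (Star m) 1 Star.leaf (sq B (m - 1)) le_rfl (by rw [sq_length]; omega)).2
  have h2 : cost Star.leaf (sq B (m - 1)) (assign A 1 Star.leaf (sq B (m - 1)))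
      = rc (Star.leaf : Fin m → Star m) B (sq B (m - 1)) := rfl
  rw [h2, rc_sq B (m - 1) hA' (m - 1) le_rfl] at h1
  have h3 := opt_sq B (m - 1) (hA' (m - 1) le_rfl)
  have h4 := opt_nonneg 1 (Star.leaf : Fin m → Star m) (sq B (m - 1))
  have h5 : ((m - 1 : ℕ) : ℝ) = (m : ℝ) - 1 := by
    rw [Nat.cast_sub hm]; simp
  have hm' : (1 : ℝ) ≤ m := by exact_mod_cast hm
  rw [h5] at h1
  rcases le_or_gt 0 c with hc | hc
  · nlinarith
  · nlinarith

/-- **The conjecture of Kalyanasundaram and Pruhs.** For every `m ≥ 1` one has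
`f(m) = 2 m - 1`, and the infimum is attained: some deterministic online algorithm is
`(2 m - 1)`-competitive on all metric spaces and for all capacities. -/
theorem result (m : ℕ) (hm : 1 ≤ m) :
    bestRatio m = 2 * (m : ℝ) - 1 ∧ ∃ A : Alg m, IsCompetitive A (2 * (m : ℝ) - 1) := by
  have : NeZero m := ⟨by omega⟩
  have hleast : IsLeast {c : ℝ | ∃ A : Alg m, IsCompetitive A c} (2 * (m : ℝ) - 1) :=
    ⟨⟨WFA m, WFA_competitive m⟩, fun c ⟨A, hA⟩ => lower_bound m A c hA⟩
  exact ⟨hleast.csInf_eq, WFA m, WFA_competitive m⟩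

end Pool.Agent.Results.MP_709c52_lc.ExactRatio
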